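import Pool.Agent.Helper8.MX.Good
import Pool.Agent.Helper8.PQ.BadZ
import Pool.Agent.Helper96.MX.Count

set_option autoImplicit false

/-!
# Nothing goes wrong with large probability
-/

namespace Pool.Agent.Helper21.MX

open Finset
open Pool.Agent.Helper22.ETModel Pool.Agent.Helper22.TSModel Pool.Agent.Helper22.EP
open Pool.Agent.Helper23.SP (pre sg Om g put)
open Pool.Agent.Helper8.PQ

variable {m n k b U M N d a D W R K K' : ℕ} [NeZero b]

/-- Counting in a product. -/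
private lemma bad_prod {α β : Type} [Fintype α] [Fintype β] (P : α → β → Prop)
    [DecidablePred fun ω : α × β => P ω.1 ω.2] [∀ a, DecidablePred (P a)] (X c : ℕ)
    (hP : ∀ a, (univ.filter fun b : β => P a b).card * X ≤ c * Fintype.card β) :
    (univ.filter fun ω : α × β => P ω.1 ω.2).card * X ≤ c * Fintype.card (α × β) := by
  have h1 : (univ.filter fun ω : α × β => P ω.1 ω.2).card =
      ∑ a : α, (univ.filter fun b : β => P a b).card := by
    rw [card_filter, Fintype.sum_prod_type]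
    refine sum_congr rfl fun a _ => ?_
    rw [card_filter]
  rw [h1, sum_mul, Fintype.card_prod]
  calc ∑ a : α, (univ.filter fun b : β => P a b).card * X
      ≤ ∑ _a : α, c * Fintype.card β := sum_le_sum fun a _ => hP a
    _ = c * (Fintype.card α * Fintype.card β) := by
        rw [sum_const, card_univ, smul_eq_mul]
        ring

open Classical in
/-- The list of the dense comparisons is bad with small probability. -/
private theorem bad_list {t s0 L Y Q H : ℕ} {Λ : ℝ} (h : 3 * m ≤ n)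
    (F : Fin K → MvPolynomial (Fin n × Fin n) ℝ) (hFd : ∀ i, (F i).totalDegree ≤ d)
    (hd : 1 ≤ d) (hs : 2 * d * t ≤ s0)
    (hK : 256 * K ≤ 2 ^ t) (hN : 256 * K * d ^ 2 ≤ N + 1) (hM : 256 * K * (4 * s0 * d) ≤ M)
    (hL : 2 * N + 2 ≤ L) (hY : M ≤ Y) (hY1 : 1 ≤ Y) (hH : (3 * m ^ 2 + 1) ^ d ≤ H)
    (hΛ : (acC d : ℝ) * H * (L * (Y : ℝ) ^ k) ≤ Λ)
    (hQ : 2 * (acC d : ℝ) * H * Λ ^ d ≤ Q) (p : Fin m × Fin m) :
    256 * (univ.filter fun z : Om (E m) k b U × BgM m k U M N =>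
      ∃ i, ¬ ((piv (Q : ℝ) Λ (qp h (F i)) z.2.1).card ≤ s0 ∧
        GoodM L Y Q (qp h (F i)) (piv (Q : ℝ) Λ (qp h (F i)) z.2.1) z.1 z.2
          (0, p.1, p.2) (1, p.2, mte p z.1 z.2.1))).card ≤
      3 * Fintype.card (Om (E m) k b U × BgM m k U M N) := by
  rcases Nat.eq_zero_or_pos K with hK0 | hK0
  · subst hK0
    have h0 : (univ.filter fun z : Om (E m) k b U × BgM m k U M N =>
      ∃ i, ¬ ((piv (Q : ℝ) Λ (qp h (F i)) z.2.1).card ≤ s0 ∧
        GoodM L Y Q (qp h (F i)) (piv (Q : ℝ) Λ (qp h (F i)) z.2.1) z.1 z.2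
          (0, p.1, p.2) (1, p.2, mte p z.1 z.2.1))) = ∅ :=
      filter_eq_empty_iff.2 fun ω _ hω => Fin.elim0 hω.choose
    rw [h0, card_empty, mul_zero]
    exact Nat.zero_le _
  have hone : ∀ i : Fin K, 256 * K * (univ.filter fun z : Om (E m) k b U × BgM m k U M N =>
      ¬ ((piv (Q : ℝ) Λ (qp h (F i)) z.2.1).card ≤ s0 ∧
        GoodM L Y Q (qp h (F i)) (piv (Q : ℝ) Λ (qp h (F i)) z.2.1) z.1 z.2
          (0, p.1, p.2) (1, p.2, mte p z.1 z.2.1))).card ≤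
      3 * Fintype.card (Om (E m) k b U × BgM m k U M N) := by
    intro i
    exact good_cardM hd hs hK hN hM hL hY hY1 hH hΛ hQ (qp h (F i))
      ((totalDegree_qp h (F i)).trans (hFd i)) (0, p.1, p.2) (fun ω δ => (1, p.2, mte p ω δ))
  have hsub : (univ.filter fun z : Om (E m) k b U × BgM m k U M N =>
      ∃ i, ¬ ((piv (Q : ℝ) Λ (qp h (F i)) z.2.1).card ≤ s0 ∧
        GoodM L Y Q (qp h (F i)) (piv (Q : ℝ) Λ (qp h (F i)) z.2.1) z.1 z.2
          (0, p.1, p.2) (1, p.2, mte p z.1 z.2.1))) ⊆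
      (univ : Finset (Fin K)).biUnion fun i =>
        (univ.filter fun z : Om (E m) k b U × BgM m k U M N =>
      ¬ ((piv (Q : ℝ) Λ (qp h (F i)) z.2.1).card ≤ s0 ∧
        GoodM L Y Q (qp h (F i)) (piv (Q : ℝ) Λ (qp h (F i)) z.2.1) z.1 z.2
          (0, p.1, p.2) (1, p.2, mte p z.1 z.2.1))) := by
    intro ω hω
    obtain ⟨i, hi⟩ := (mem_filter.1 hω).2
    exact mem_biUnion.2 ⟨i, mem_univ _, mem_filter.2 ⟨mem_univ _, hi⟩⟩
  have h4 := (card_le_card hsub).trans card_biUnion_le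
  apply Nat.le_of_mul_le_mul_left _ hK0
  calc K * (256 * (univ.filter fun z : Om (E m) k b U × BgM m k U M N =>
      ∃ i, ¬ ((piv (Q : ℝ) Λ (qp h (F i)) z.2.1).card ≤ s0 ∧
        GoodM L Y Q (qp h (F i)) (piv (Q : ℝ) Λ (qp h (F i)) z.2.1) z.1 z.2
          (0, p.1, p.2) (1, p.2, mte p z.1 z.2.1))).card) =
      256 * K * (univ.filter fun z : Om (E m) k b U × BgM m k U M N =>
      ∃ i, ¬ ((piv (Q : ℝ) Λ (qp h (F i)) z.2.1).card ≤ s0 ∧
        GoodM L Y Q (qp h (F i)) (piv (Q : ℝ) Λ (qp h (F i)) z.2.1) z.1 z.2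
          (0, p.1, p.2) (1, p.2, mte p z.1 z.2.1))).card := by ring
    _ ≤ 256 * K * ∑ i : Fin K, _ := Nat.mul_le_mul_left _ h4
    _ = ∑ i : Fin K, 256 * K * _ := mul_sum _ _ _
    _ ≤ ∑ _i : Fin K, 3 * Fintype.card (Om (E m) k b U × BgM m k U M N) :=
      sum_le_sum fun i _ => hone i
    _ = K * (3 * Fintype.card (Om (E m) k b U × BgM m k U M N)) := by
      rw [sum_const, card_univ, Fintype.card_fin, smul_eq_mul]

open Classical in
/-- Exceptional zero tests have small probability. -/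
private theorem bad_zero (A : Alg n D W R (PolQ n d a) SignType) (h : 3 * m ≤ n)
    (F' : Fin K' → MvPolynomial (Fin n × Fin n) ℝ) (hFd : ∀ i, (F' i).totalDegree ≤ d)
    {L Y Q : ℕ} (hQ : 1 ≤ Q) (ρ : Fin R → Bool)
    (h4 : 256 * (2 * (D * (3 * m ^ 2 * ((2 * d * K' + 1) * a)))) ≤ N + 1)
    (p : Fin m × Fin m) :
    256 * (univ.filter fun z : Om (E m) k b U × BgM m k U M N =>
      badZ A h F' ρ id (vrM L Y Q z.1 z.2) ∨
      badZ A h F' ρ (plt (0, p.1, p.2) (1, p.2, mte p z.1 z.2.1)) (vrM L Y Q z.1 z.2)).card ≤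
      Fintype.card (Om (E m) k b U × BgM m k U M N) := by
  obtain ⟨c, hc⟩ : ∃ c, c = 2 * (D * (3 * m ^ 2 * ((2 * d * K' + 1) * a))) := ⟨_, rfl⟩
  have key : (univ.filter fun z : Om (E m) k b U × BgM m k U M N =>
      badZ A h F' ρ id (vrM L Y Q z.1 z.2) ∨
      badZ A h F' ρ (plt (0, p.1, p.2) (1, p.2, mte p z.1 z.2.1)) (vrM L Y Q z.1 z.2)).card *
      (N + 1) ≤ c * Fintype.card (Om (E m) k b U × BgM m k U M N) := by
    refine bad_prod (fun (ω : Om (E m) k b U) (lam : BgM m k U M N) =>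
      badZ A h F' ρ id (vrM L Y Q ω lam) ∨
      badZ A h F' ρ (plt (0, p.1, p.2) (1, p.2, mte p ω lam.1)) (vrM L Y Q ω lam))
      (N + 1) c fun ω => ?_
    refine bad_prod (fun (δ : E m → Bool) (uξ : (Fin k → Fin U → Fin M) × (E m → Fin (N + 1))) =>
      badZ A h F' ρ id (vrM L Y Q ω (δ, uξ)) ∨
      badZ A h F' ρ (plt (0, p.1, p.2) (1, p.2, mte p ω δ)) (vrM L Y Q ω (δ, uξ)))
      (N + 1) c fun δ => ?_
    refine bad_prod (fun (u : Fin k → Fin U → Fin M) (ξ : E m → Fin (N + 1)) =>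
      badZ A h F' ρ id (vrM L Y Q ω (δ, u, ξ)) ∨
      badZ A h F' ρ (plt (0, p.1, p.2) (1, p.2, mte p ω δ)) (vrM L Y Q ω (δ, u, ξ)))
      (N + 1) c fun u => ?_
    have e1 := card_badZ_le (N := N) (L := L) (Y := Y) A h F' hFd hQ ρ linT_id ω.1 δ
      (fun i c => u i (ω.2 i c))
    have e2 := card_badZ_le (N := N) (L := L) (Y := Y) A h F' hFd hQ ρ
      (linT_plt (0, p.1, p.2) (1, p.2, mte p ω δ)) ω.1 δ (fun i c => u i (ω.2 i c))
    refine (Nat.mul_le_mul_right _ ((card_le_card ?_).trans (card_union_le _ _))).trans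
      ((le_of_eq (add_mul _ _ _)).trans ((Nat.add_le_add e1 e2).trans (le_of_eq ?_)))
    · intro ξ hξ
      rw [mem_union]
      rcases (mem_filter.1 hξ).2 with h5 | h5
      · exact Or.inl (mem_filter.2 ⟨mem_univ _, h5⟩)
      · exact Or.inr (mem_filter.2 ⟨mem_univ _, h5⟩)
    · rw [hc]
      ring
  have hN : 0 < N + 1 := Nat.succ_pos _
  rw [← hc] at h4
  apply Nat.le_of_mul_le_mul_right _ hN
  calc _ = 256 * ((univ.filter fun z : Om (E m) k b U × BgM m k U M N =>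
      badZ A h F' ρ id (vrM L Y Q z.1 z.2) ∨
      badZ A h F' ρ (plt (0, p.1, p.2) (1, p.2, mte p z.1 z.2.1)) (vrM L Y Q z.1 z.2)).card *
      (N + 1)) := by ring
    _ ≤ 256 * (c * Fintype.card (Om (E m) k b U × BgM m k U M N)) :=
        Nat.mul_le_mul_left _ key
    _ = (256 * c) * Fintype.card (Om (E m) k b U × BgM m k U M N) := by ring
    _ ≤ (N + 1) * Fintype.card (Om (E m) k b U × BgM m k U M N) :=
        Nat.mul_le_mul_right _ h4
    _ = _ := Nat.mul_comm _ _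

open Classical in
/-- Nothing goes wrong with probability at least `47 / 48`. -/
theorem badM_card_of {t s κ s0 L Y Q H : ℕ} {Λ : ℝ} (A : Alg n D W R (PolQ n d a) SignType)
    (h : 3 * m ≤ n) (F : Fin K → MvPolynomial (Fin n × Fin n) ℝ)
    (F' : Fin K' → MvPolynomial (Fin n × Fin n) ℝ)
    (hFd : ∀ i, (F i).totalDegree ≤ d) (hFd' : ∀ i, (F' i).totalDegree ≤ d)
    (hd : 1 ≤ d) (hs : 2 * d * t ≤ s0)
    (hK : 256 * K ≤ 2 ^ t) (hN : 256 * K * d ^ 2 ≤ N + 1) (hM : 256 * K * (4 * s0 * d) ≤ M)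
    (hL : 2 * N + 2 ≤ L) (hY : M ≤ Y) (hY1 : 1 ≤ Y) (hH : (3 * m ^ 2 + 1) ^ d ≤ H)
    (hΛ : (acC d : ℝ) * H * (L * (Y : ℝ) ^ k) ≤ Λ)
    (hQ : 2 * (acC d : ℝ) * H * Λ ^ d ≤ Q) (hQ1 : 1 ≤ Q)
    (hsp : 256 * (univ.filter fun z : Om (E m) k b U × BgM m k U M N =>
      ¬ SpOK s (s * κ) z.2).card ≤ Fintype.card (Om (E m) k b U × BgM m k U M N))
    (h4 : 256 * (2 * (D * (3 * m ^ 2 * ((2 * d * K' + 1) * a)))) ≤ N + 1)
    (ρ : Fin R → Bool) (p : Fin m × Fin m) :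
    48 * (BadM (k := k) (b := b) (U := U) (M := M) (N := N) A h F F' s κ s0 L Y Q Λ ρ p).card ≤
      Fintype.card (Om (E m) k b U × BgM m k U M N) := by
  have a1 := bad_list (k := k) (b := b) (U := U) (M := M) (N := N) h F hFd hd hs hK hN hM hL hY
    hY1 hH hΛ hQ p
  have a2 := bad_zero (k := k) (b := b) (U := U) (M := M) (N := N) A h F' hFd'
    (L := L) (Y := Y) hQ1 ρ h4 p
  have hsub : BadM (k := k) (b := b) (U := U) (M := M) (N := N) A h F F' s κ s0 L Y Q Λ ρ p ⊆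
      (univ.filter fun z : Om (E m) k b U × BgM m k U M N =>
      ∃ i, ¬ ((piv (Q : ℝ) Λ (qp h (F i)) z.2.1).card ≤ s0 ∧
        GoodM L Y Q (qp h (F i)) (piv (Q : ℝ) Λ (qp h (F i)) z.2.1) z.1 z.2
          (0, p.1, p.2) (1, p.2, mte p z.1 z.2.1))) ∪
      ((univ.filter fun z : Om (E m) k b U × BgM m k U M N => ¬ SpOK s (s * κ) z.2) ∪
      (univ.filter fun z : Om (E m) k b U × BgM m k U M N =>
        badZ A h F' ρ id (vrM L Y Q z.1 z.2) ∨
        badZ A h F' ρ (plt (0, p.1, p.2) (1, p.2, mte p z.1 z.2.1)) (vrM L Y Q z.1 z.2))) := by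
    intro z hz
    rw [mem_union, mem_union, mem_filter, mem_filter, mem_filter]
    rcases (mem_filter.1 hz).2 with h5 | h5 | h5
    · exact Or.inl ⟨mem_univ _, h5⟩
    · exact Or.inr (Or.inl ⟨mem_univ _, h5⟩)
    · exact Or.inr (Or.inr ⟨mem_univ _, h5⟩)
  have h6 := (card_le_card hsub).trans ((card_union_le _ _).trans
    (Nat.add_le_add_left (card_union_le _ _) _))
  omega

open Classical in
/-- Nothing goes wrong with probability at least `47 / 48`, from inequalities of sizes only. -/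
theorem badM_card {t s κ s0 L Y Q H : ℕ} {Λ : ℝ} (A : Alg n D W R (PolQ n d a) SignType)
    (h : 3 * m ≤ n) (F : Fin K → MvPolynomial (Fin n × Fin n) ℝ)
    (F' : Fin K' → MvPolynomial (Fin n × Fin n) ℝ)
    (hFd : ∀ i, (F i).totalDegree ≤ d) (hFd' : ∀ i, (F' i).totalDegree ≤ d)
    (hd : 1 ≤ d) (hs : 2 * d * t ≤ s0)
    (hK : 256 * K ≤ 2 ^ t) (hN : 256 * K * d ^ 2 ≤ N + 1) (hM : 256 * K * (4 * s0 * d) ≤ M)
    (hMf : 512 * (k * (U * (2 * (s * κ) + 1)) ^ s) ≤ M)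
    (hNf : 512 * (3 * m ^ 2 * (2 * (s * κ) + 1)) ^ s ≤ N + 1)
    (hL : 2 * N + 2 ≤ L) (hY : M ≤ Y) (hY1 : 1 ≤ Y) (hH : (3 * m ^ 2 + 1) ^ d ≤ H)
    (hΛ : (acC d : ℝ) * H * (L * (Y : ℝ) ^ k) ≤ Λ)
    (hQ : 2 * (acC d : ℝ) * H * Λ ^ d ≤ Q) (hQ1 : 1 ≤ Q)
    (h4 : 256 * (2 * (D * (3 * m ^ 2 * ((2 * d * K' + 1) * a)))) ≤ N + 1)
    (ρ : Fin R → Bool) (p : Fin m × Fin m) :
    48 * (BadM (k := k) (b := b) (U := U) (M := M) (N := N) A h F F' s κ s0 L Y Q Λ ρ p).card ≤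
      Fintype.card (Om (E m) k b U × BgM m k U M N) := by
  refine badM_card_of A h F F' hFd hFd' hd hs hK hN hM hL hY hY1 hH hΛ hQ hQ1 ?_ h4 ρ p
  refine (Nat.mul_le_mul_left 256 (card_le_card fun z hz => ?_)).trans
    (Pool.Agent.Helper21.MX.spOK_card (m := m) (k := k) (b := b) (U := U) (M := M) (N := N)
      (s := s) (c := s * κ) hMf hNf)
  rw [mem_filter] at hz ⊢
  exact hz

end Pool.Agent.Helper21.MX
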