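import Pool.Agent.Helper79.MX.Hyb
import Pool.Agent.Helper21.MX.Defs
import Pool.Agent.Helper8.PQ.Piv
import Pool.Agent.Helper8.PQ.Anti
import Pool.Agent.Helper8.PQ.Drop
import Pool.Agent.Helper8.PQ.Mono
import Pool.Agent.Helper8.PQ.Inst

set_option autoImplicit false

/-!
# A dense sign query is good with large probability
-/

namespace Pool.Agent.Helper21.MX

open Finset
open Pool.Agent.Helper22.ETModel Pool.Agent.Helper22.EP
open Pool.Agent.Helper23.SP (pre sg Om g put)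
open Pool.Agent.Helper21.DS (strc)
open Pool.Agent.Helper8.PQ

variable {m k b U M N : ℕ} [NeZero b]

/-- A small change does not change the sign. -/
private theorem good_sign {a c err : ℝ} (h : |c - a| ≤ err) (h1 : err < |a|) :
    SignType.sign c = SignType.sign a := by
  rw [abs_le] at h
  rcases lt_trichotomy a 0 with h2 | h2 | h2
  · rw [abs_of_neg h2] at h1
    rw [sign_neg h2, sign_neg (by linarith)]
  · rw [h2, abs_zero] at h1
    linarith
  · rw [abs_of_pos h2] at h1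
    rw [sign_pos h2, sign_pos (by linarith)]

/-- Deterministic part. -/
private theorem goodM_of {s0 L Y Q : ℕ} {Λ err : ℝ} (p : MvPolynomial (E m) ℝ)
    (ω : Om (E m) k b U) (lam : BgM m k U M N) (x y : E m)
    (h1 : (piv (Q : ℝ) Λ p lam.1).card ≤ s0)
    (h2 : err < |MvPolynomial.eval (cut lam.1 (piv (Q : ℝ) Λ p lam.1)
      (vrM L Y Q ω lam)) p|)
    (h3 : SignType.sign (MvPolynomial.eval (cut lam.1 (piv (Q : ℝ) Λ p lam.1)
      (vrM L Y Q ω lam)) p) = idlM L Y Q p (piv (Q : ℝ) Λ p lam.1) ω lam)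
    (h4 : x ∈ piv (Q : ℝ) Λ p lam.1 → x ∉ hm (piv (Q : ℝ) Λ p lam.1) ω k →
      lam.1 y = false → ω.1 y = ω.1 x →
      err < |MvPolynomial.eval (Function.update (cut lam.1 (piv (Q : ℝ) Λ p lam.1)
        (vrM L Y Q ω lam)) x (vrM L Y Q ω lam y)) p| ∧
      SignType.sign (MvPolynomial.eval (Function.update (cut lam.1 (piv (Q : ℝ) Λ p lam.1)
        (vrM L Y Q ω lam)) x (vrM L Y Q ω lam y)) p) =
      SignType.sign (MvPolynomial.eval (cut lam.1 (piv (Q : ℝ) Λ p lam.1)
        (vrM L Y Q ω lam)) p))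
    (h5 : ∀ v : E m → ℝ, (∀ e, ∃ e', lam.1 e' = lam.1 e ∧ v e = vrM L Y Q ω lam e') →
      |MvPolynomial.eval v p - MvPolynomial.eval (cut lam.1 (piv (Q : ℝ) Λ p lam.1) v) p| ≤
        err) :
    (piv (Q : ℝ) Λ p lam.1).card ≤ s0 ∧ GoodM L Y Q p (piv (Q : ℝ) Λ p lam.1) ω lam x y := by
  refine ⟨h1, ?_, ?_⟩
  · rw [← h3]
    exact good_sign (h5 _ fun e => ⟨e, rfl, rfl⟩) h2
  · intro hx hy hxy hdg hmt
    have h6 := h5 (Function.update (vrM L Y Q ω lam) x (vrM L Y Q ω lam y)) (fun e => by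
      by_cases he : e = x
      · subst he
        exact ⟨y, hy.trans hx.symm, by simp⟩
      · exact ⟨e, rfl, by simp [he]⟩)
    rw [← h3]
    by_cases hxS : x ∈ piv (Q : ℝ) Λ p lam.1
    · have e1 : cut lam.1 (piv (Q : ℝ) Λ p lam.1) (Function.update (vrM L Y Q ω lam) x (vrM L Y Q ω lam y)) =
          Function.update (cut lam.1 (piv (Q : ℝ) Λ p lam.1) (vrM L Y Q ω lam)) x (vrM L Y Q ω lam y) := by
        funext e
        by_cases he : e = x
        · subst he
          unfold cut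
          rw [if_pos (Or.inr hxS), Function.update_self, Function.update_self]
        · unfold cut
          rw [Function.update_of_ne he, Function.update_of_ne he]
      obtain ⟨h7, h8⟩ := h4 hxS hmt hy hdg
      rw [e1] at h6
      exact (good_sign h6 h7).trans h8
    · have e1 : cut lam.1 (piv (Q : ℝ) Λ p lam.1) (Function.update (vrM L Y Q ω lam) x (vrM L Y Q ω lam y)) =
          cut lam.1 (piv (Q : ℝ) Λ p lam.1) (vrM L Y Q ω lam) := by
        funext e
        by_cases he : e = x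
        · subst he
          have h7 : ¬ (lam.1 e = true ∨ e ∈ piv (Q : ℝ) Λ p lam.1) := by
            rw [hx]
            simp [hxS]
          unfold cut
          rw [if_neg h7, if_neg h7]
        · unfold cut
          rw [Function.update_of_ne he]
      rw [e1] at h6
      exact good_sign h6 h2

/-- Counting fibre by fibre. -/
private lemma good_fib {Ω α β : Type} [Fintype Ω] [Fintype α] [Fintype β] (e : α × β ≃ Ω)
    (P : Ω → Prop) [DecidablePred P] (C : ℕ)
    (h : ∀ a, C * (univ.filter fun b => P (e (a, b))).card ≤ Fintype.card β) :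
    C * (univ.filter P).card ≤ Fintype.card Ω := by
  classical
  have h1 : (univ.filter P).card = ∑ a : α, (univ.filter fun b => P (e (a, b))).card := by
    rw [card_filter, ← Equiv.sum_comp e, Fintype.sum_prod_type]
    refine sum_congr rfl fun a _ => ?_
    rw [card_filter]
  rw [h1, mul_sum, ← Fintype.card_congr e, Fintype.card_prod, ← smul_eq_mul (Fintype.card α),
    ← card_univ (α := α), ← sum_const]
  exact sum_le_sum fun a _ => h a

private lemma good_cancel {C G X V T : ℕ} (h : C * G ≤ V) (hX : X * V ≤ G * T) (h0 : 0 < G) :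
    C * X ≤ T := by
  have h2 : G * (C * X) ≤ G * T := by
    calc G * (C * X) = X * (C * G) := by ring
      _ ≤ X * V := Nat.mul_le_mul_left _ h
      _ ≤ G * T := hX
  exact Nat.le_of_mul_le_mul_left h2 h0

/-- The random data, with the marks last. -/
private def good_eqD (m k b U M N : ℕ) :
    (Om (E m) k b U × ((Fin k → Fin U → Fin M) × (E m → Fin (N + 1)))) ×
      (E m → Bool) ≃ Om (E m) k b U × BgM m k U M N where
  toFun x := (x.1.1, x.2, x.1.2)
  invFun ω := ((ω.1, ω.2.2), ω.2.1)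
  left_inv _ := rfl
  right_inv _ := rfl

/-- The random data, with the masks last. -/
private def good_eqU (m k b U M N : ℕ) :
    (Om (E m) k b U × ((E m → Bool) × (E m → Fin (N + 1)))) ×
      (Fin k → Fin U → Fin M) ≃ Om (E m) k b U × BgM m k U M N where
  toFun x := (x.1.1, x.1.2.1, x.2, x.1.2.2)
  invFun ω := ((ω.1, ω.2.1, ω.2.2.2), ω.2.2.1)
  left_inv _ := rfl
  right_inv _ := rfl

/-- The random data, with the noise last. -/
private def good_eqX (m k b U M N : ℕ) :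
    (Om (E m) k b U × ((E m → Bool) × (Fin k → Fin U → Fin M))) ×
      (E m → Fin (N + 1)) ≃ Om (E m) k b U × BgM m k U M N where
  toFun x := (x.1.1, x.1.2.1, x.1.2.2, x.2)
  invFun ω := ((ω.1, ω.2.1, ω.2.2.1), ω.2.2.2)
  left_inv _ := rfl
  right_inv _ := rfl

/-- The value with all other variables dropped is small. -/
private def GP2 (L Y Q : ℕ) (Λ : ℝ) (p : MvPolynomial (E m) ℝ) (err : (E m → Bool) → ℝ)
    (z : Om (E m) k b U × BgM m k U M N) : Prop :=
  ¬ (err z.2.1 < |MvPolynomial.eval (cut z.2.1 (piv (Q : ℝ) Λ p z.2.1) (vrM L Y Q z.1 z.2)) p|)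

/-- Truncation or planting change the sign. -/
private def GP3 (s0 L Y Q : ℕ) (Λ : ℝ) (p : MvPolynomial (E m) ℝ) (err : (E m → Bool) → ℝ)
    (x : E m) (y : Om (E m) k b U → (E m → Bool) → E m)
    (z : Om (E m) k b U × BgM m k U M N) : Prop :=
  (piv (Q : ℝ) Λ p z.2.1).card ≤ s0 ∧
  err z.2.1 < |MvPolynomial.eval (cut z.2.1 (piv (Q : ℝ) Λ p z.2.1) (vrM L Y Q z.1 z.2)) p| ∧
      (SignType.sign (MvPolynomial.eval (cut z.2.1 (piv (Q : ℝ) Λ p z.2.1) (vrM L Y Q z.1 z.2)) p) ≠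
        idlM L Y Q p (piv (Q : ℝ) Λ p z.2.1) z.1 z.2 ∨
      (x ∈ piv (Q : ℝ) Λ p z.2.1 ∧ x ∉ hm (piv (Q : ℝ) Λ p z.2.1) z.1 k ∧
        z.2.1 (y z.1 z.2.1) = false ∧ z.1.1 (y z.1 z.2.1) = z.1.1 x ∧
        ¬ (err z.2.1 < |MvPolynomial.eval (Function.update (cut z.2.1 (piv (Q : ℝ) Λ p z.2.1)
            (vrM L Y Q z.1 z.2)) x (vrM L Y Q z.1 z.2 (y z.1 z.2.1))) p| ∧
          SignType.sign (MvPolynomial.eval (Function.update
            (cut z.2.1 (piv (Q : ℝ) Λ p z.2.1) (vrM L Y Q z.1 z.2)) x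
              (vrM L Y Q z.1 z.2 (y z.1 z.2.1))) p) =
          SignType.sign (MvPolynomial.eval (cut z.2.1 (piv (Q : ℝ) Λ p z.2.1)
            (vrM L Y Q z.1 z.2)) p))))

/-- The bounds of the values. -/
private theorem good_bd {L Y Q : ℕ} (hL : 2 * N + 2 ≤ L) (hY : M ≤ Y) (hY1 : 1 ≤ Y) (hQ1 : 1 ≤ Q)
    (ω : Om (E m) k b U) (lam : BgM m k U M N) (e : E m) :
    (lam.1 e = true → |vrM L Y Q ω lam e| ≤ (Q : ℝ) * (L * (Y : ℝ) ^ k)) ∧
      (lam.1 e = false → |vrM L Y Q ω lam e| ≤ L * (Y : ℝ) ^ k) := by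
  have h0 : (0 : ℝ) ≤ vrM L Y Q ω lam e := by
    unfold vrM vr
    exact_mod_cast vl_nonneg L Y Q ω.1 (cmp ω.2 lam) e
  rw [abs_of_nonneg h0]
  constructor
  · intro he
    have h1 : vrM L Y Q ω lam e ≤ (Q : ℝ) * ((N : ℝ) + 1) := by
      unfold vrM vr
      exact_mod_cast vl_le_del L Y Q hQ1 ω.1 (cmp ω.2 lam) e he
    refine h1.trans (mul_le_mul_of_nonneg_left ?_ (Nat.cast_nonneg _))
    have h2 : (N : ℝ) + 1 ≤ L := by exact_mod_cast (by omega : N + 1 ≤ L)
    have h3 : (1 : ℝ) ≤ (Y : ℝ) ^ k := one_le_pow₀ (by exact_mod_cast hY1)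
    calc (N : ℝ) + 1 ≤ L * 1 := by rw [mul_one]; exact h2
      _ ≤ L * (Y : ℝ) ^ k := mul_le_mul_of_nonneg_left h3 (Nat.cast_nonneg _)
  · intro he
    unfold vrM vr
    exact_mod_cast vl_le L Y Q hL hY ω.1 (cmp ω.2 lam) e he

open Classical in
omit [NeZero b] in
/-- Few marks with many pivotal elements. -/
private theorem good_P1 {K d t s : ℕ} {q Λ : ℝ} (hq : 1 ≤ q) (hΛ : 0 ≤ Λ) (hs : 2 * d * t ≤ s)
    (hK : 256 * K ≤ 2 ^ t) (p : MvPolynomial (E m) ℝ) (hp : p.totalDegree ≤ d) :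
    256 * K * (univ.filter fun ω : Om (E m) k b U × BgM m k U M N =>
      s < (piv q Λ p ω.2.1).card).card ≤
      Fintype.card (Om (E m) k b U × BgM m k U M N) := by
  refine good_fib (good_eqD m k b U M N) _ _ fun x => ?_
  have e1 : (univ.filter fun δ : E m → Bool => s < (piv q Λ p (good_eqD m k b U M N (x, δ)).2.1).card) =
      (univ.filter fun δ : E m → Bool => s < (piv q Λ p δ).card) := rfl
  rw [e1]
  calc 256 * K * (univ.filter fun δ : E m → Bool => s < (piv q Λ p δ).card).card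
      ≤ 2 ^ t * (univ.filter fun δ : E m → Bool => 2 * d * t < (piv q Λ p δ).card).card := by
        refine Nat.mul_le_mul hK (card_le_card fun δ hδ => ?_)
        rw [mem_filter] at hδ ⊢
        exact ⟨mem_univ _, lt_of_le_of_lt hs hδ.2⟩
    _ = (univ.filter fun δ : E m → Bool => 2 * d * t < (piv q Λ p δ).card).card * 2 ^ t := mul_comm _ _
    _ ≤ _ := card_piv hq hΛ p hp t

open Classical in
/-- Few noises with a small value. -/
private theorem good_P2 {K d L Y Q H : ℕ} {Λ : ℝ} (hd : 1 ≤ d) (hN : 256 * K * d ^ 2 ≤ N + 1)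
    (hL : 2 * N + 2 ≤ L) (hY : M ≤ Y) (hY1 : 1 ≤ Y) (hH : (3 * m ^ 2 + 1) ^ d ≤ H)
    (hΛ : (acC d : ℝ) * H * (L * (Y : ℝ) ^ k) ≤ Λ)
    (hQ : 2 * (acC d : ℝ) * H * Λ ^ d ≤ Q) (p : MvPolynomial (E m) ℝ)
    (hp : p.totalDegree ≤ d) (hQ1 : 1 < Q) (hΛ0 : 0 < Λ) (μ0 : (E m → Bool) → (E m →₀ ℕ))
    (hμ0 : ∀ δ, μ0 δ ∈ p.support) (hmax : ∀ δ, ∀ μ ∈ p.support, mag (Q : ℝ) Λ p δ μ ≤ mag (Q : ℝ) Λ p δ (μ0 δ)) :
    256 * K * (univ.filter fun ω : Om (E m) k b U × BgM m k U M N =>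
      GP2 L Y Q Λ p (fun δ => (H : ℝ) * mag (Q : ℝ) Λ p δ (μ0 δ) / Q) ω).card ≤
      Fintype.card (Om (E m) k b U × BgM m k U M N) := by
  have hQ0 : (0 : ℝ) < Q := by exact_mod_cast (by omega : 0 < Q)
  have hac : (1 : ℝ) ≤ acC d := by exact_mod_cast one_le_acC d
  have hH1 : 1 ≤ H := (Nat.one_le_pow _ _ (by omega)).trans hH
  have hH1' : (1 : ℝ) ≤ H := by exact_mod_cast hH1
  have hLR : (2 : ℝ) ≤ L := by exact_mod_cast (by omega : 2 ≤ L)
  have hYk : (1 : ℝ) ≤ (Y : ℝ) ^ k := one_le_pow₀ (by exact_mod_cast hY1)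
  have hB1 : (1 : ℝ) ≤ L * (Y : ℝ) ^ k := by nlinarith
  refine good_fib (good_eqX m k b U M N) _ _ fun x => ?_
  obtain ⟨ω0, δ, u0⟩ := x
  obtain ⟨dg, hdg⟩ : ∃ dg, dg = ω0.1 := ⟨_, rfl⟩
  obtain ⟨u, hu⟩ : ∃ u : Fin k → (Fin k → Fin b) → Fin M, u = fun i c => u0 i (ω0.2 i c) := ⟨_, rfl⟩
  -- the affine substitution
  let c : E m → ℝ := fun e => if δ e = true then (Q : ℝ) else if e ∈ piv (Q : ℝ) Λ p δ then 2 else 0
  let a : E m → ℝ := fun e => if δ e = true then ((par e : ℤ) : ℝ) / Q else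
    if e ∈ piv (Q : ℝ) Λ p δ then (((L : ℤ) * strc Y u (dg e) + par e : ℤ) : ℝ) / 2 else 0
  have hc : ∀ e, 0 ≤ c e := by
    intro e
    simp only [c]
    split_ifs
    · exact hQ0.le
    · norm_num
    · exact le_rfl
  have hpar : ∀ e : E m, (0 : ℝ) ≤ ((par e : ℤ) : ℝ) ∧ ((par e : ℤ) : ℝ) ≤ 1 := by
    intro e
    unfold par
    split_ifs <;> norm_num
  have ha : ∀ e, ∀ x : Fin (N + 1), |a e + ((x : ℕ) : ℝ)| ≤ L * (Y : ℝ) ^ k := by
    intro e x
    have hx0 : (0 : ℝ) ≤ ((x : ℕ) : ℝ) := Nat.cast_nonneg _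
    have hxN : ((x : ℕ) : ℝ) ≤ N := by exact_mod_cast Nat.lt_succ_iff.1 x.isLt
    have hNL : (2 : ℝ) * N + 2 ≤ L := by exact_mod_cast hL
    have hLB : (L : ℝ) ≤ L * (Y : ℝ) ^ k := le_mul_of_one_le_right (by linarith) hYk
    simp only [a]
    split_ifs with h1 h2
    · have h3 : (0 : ℝ) ≤ ((par e : ℤ) : ℝ) / Q := div_nonneg (hpar e).1 hQ0.le
      have h4 : ((par e : ℤ) : ℝ) / Q ≤ 1 := by
        rw [div_le_one hQ0]
        refine (hpar e).2.trans ?_
        exact_mod_cast hQ1.le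
      rw [abs_of_nonneg (by linarith)]
      linarith
    · have h3 := vl_nonneg (N := N) L Y Q dg (δ, u, fun _ => x) e
      have h4 := vl_le (N := N) L Y Q hL hY dg (δ, u, fun _ => x) e (by simpa using h1)
      have h5 : vl (N := N) L Y Q dg (δ, u, fun _ => x) e = (L : ℤ) * strc Y u (dg e) + 2 * ((x : ℕ) : ℤ) + par e := by
        unfold vl
        rw [if_neg h1]
      rw [h5] at h3 h4
      have h3' : (0 : ℝ) ≤ ((L : ℝ) * ((strc Y u (dg e) : ℤ) : ℝ) + 2 * ((x : ℕ) : ℝ) + ((par e : ℤ) : ℝ)) := by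
        exact_mod_cast h3
      have h4' : ((L : ℝ) * ((strc Y u (dg e) : ℤ) : ℝ) + 2 * ((x : ℕ) : ℝ) + ((par e : ℤ) : ℝ)) ≤
          L * (Y : ℝ) ^ k := by
        exact_mod_cast h4
      push_cast
      rw [abs_of_nonneg (by linarith)]
      linarith
    · rw [zero_add, abs_of_nonneg hx0]
      linarith
  have hcut : ∀ ξ : E m → Fin (N + 1), cut δ (piv (Q : ℝ) Λ p δ) (vr L Y Q dg (δ, u, ξ)) =
      fun e => c e * (a e + ((ξ e : ℕ) : ℝ)) := by
    intro ξ
    funext e
    unfold cut vr vl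
    simp only [c, a]
    by_cases h1 : δ e = true
    · simp only [h1, true_or, if_true]
      push_cast
      field_simp
      ring
    · by_cases h2 : e ∈ piv (Q : ℝ) Λ p δ
      · simp only [h1, h2, or_true, if_true]
        push_cast
        ring
      · simp [h1, h2]
  have hsup : (acC d : ℝ) * (p.support.card : ℝ) * (L * (Y : ℝ) ^ k) ≤ Λ := by
    refine le_trans ?_ hΛ
    refine mul_le_mul_of_nonneg_right (mul_le_mul_of_nonneg_left ?_ (by linarith)) (by linarith)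
    have h1 : p.support.card ≤ H := (support_card_le p hp).trans (by
      rw [Fintype.card_prod, Fintype.card_prod, Fintype.card_fin, Fintype.card_fin, ← sq]
      exact hH)
    exact_mod_cast h1
  have hanti := anti p hp c a hc hB1 ha hsup (μ0 δ) (hμ0 δ)
  refine good_cancel hN (le_trans (Nat.mul_le_mul_right _ (card_le_card fun ξ hξ => ?_)) hanti) (by positivity)
  rw [mem_filter] at hξ ⊢
  refine ⟨mem_univ _, ?_⟩
  have h1 : ¬ ((H : ℝ) * mag (Q : ℝ) Λ p δ (μ0 δ) / Q < |MvPolynomial.eval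
        (cut δ (piv (Q : ℝ) Λ p δ) (vr L Y Q dg (δ, u, ξ))) p|) := by
    rw [hdg, hu]
    exact hξ.2
  rw [hcut ξ, not_lt] at h1
  have hco : 0 < |p.coeff (μ0 δ)| := abs_pos.2 (MvPolynomial.mem_support_iff.1 (hμ0 δ))
  have hmag : 0 < mag (Q : ℝ) Λ p δ (μ0 δ) := by
    unfold mag
    positivity
  have hprod : (Q : ℝ) ^ dgd δ (μ0 δ) ≤ ∏ e, c e ^ (μ0 δ) e := by
    have h2 : (Q : ℝ) ^ dgd δ (μ0 δ) = ∏ e, (Q : ℝ) ^ (if δ e = true then (μ0 δ) e else 0) := by
      rw [prod_pow_eq_pow_sum]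
      rfl
    rw [h2]
    refine prod_le_prod (fun e _ => by positivity) fun e _ => ?_
    by_cases h3 : δ e = true
    · simp only [c, h3, if_true]
      exact le_rfl
    · rw [if_neg h3, pow_zero]
      by_cases h4 : e ∈ (μ0 δ).support
      · have h5 := max_inside (by exact_mod_cast hQ1) hΛ0 p δ (hμ0 δ) (hmax δ) h4
        have h6 : e ∈ piv (Q : ℝ) Λ p δ := by
          rcases h5 with h5 | h5
          · exact absurd h5 h3
          · exact h5
        simp only [c]
        rw [if_neg h3, if_pos h6]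
        exact one_le_pow₀ (by norm_num)
      · rw [Finsupp.notMem_support_iff.1 h4, pow_zero]
  have hΛd : 0 < Λ ^ d := by positivity
  calc (acC d : ℝ) * Λ ^ d * |MvPolynomial.eval (fun e => c e * (a e + ((ξ e : ℕ) : ℝ))) p|
      ≤ (acC d : ℝ) * Λ ^ d * ((H : ℝ) * mag (Q : ℝ) Λ p δ (μ0 δ) / Q) :=
        mul_le_mul_of_nonneg_left h1 (by positivity)
    _ < mag (Q : ℝ) Λ p δ (μ0 δ) := by
        rw [mul_div_assoc', div_lt_iff₀ hQ0]
        have h7 : (acC d : ℝ) * Λ ^ d * (H : ℝ) < Q := by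
          have h8 : 0 < (acC d : ℝ) * H * Λ ^ d := by positivity
          nlinarith
        calc (acC d : ℝ) * Λ ^ d * ((H : ℝ) * mag (Q : ℝ) Λ p δ (μ0 δ))
            = ((acC d : ℝ) * Λ ^ d * H) * mag (Q : ℝ) Λ p δ (μ0 δ) := by ring
          _ < Q * mag (Q : ℝ) Λ p δ (μ0 δ) := mul_lt_mul_of_pos_right h7 hmag
          _ = mag (Q : ℝ) Λ p δ (μ0 δ) * Q := mul_comm _ _
    _ ≤ |p.coeff (μ0 δ)| * (∏ e, c e ^ (μ0 δ) e) * Λ ^ (μ0 δ).degree := by
        unfold mag
        refine mul_le_mul_of_nonneg_right (mul_le_mul_of_nonneg_left hprod hco.le) (by positivity)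

/-- Truncation and planting for one polynomial, in terms of the values of four hybrids. -/
private theorem good_hyb {K' : Type} (p : MvPolynomial K' ℝ) {err : ℝ} (he : 0 ≤ err)
    (R I R' : K' → ℝ) (h : err < |MvPolynomial.eval R p|)
    (h1 : SignType.sign (MvPolynomial.eval R (p - MvPolynomial.C err)) =
      SignType.sign (MvPolynomial.eval I (p - MvPolynomial.C err)))
    (h2 : SignType.sign (MvPolynomial.eval R (p + MvPolynomial.C err)) =
      SignType.sign (MvPolynomial.eval I (p + MvPolynomial.C err)))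
    (h3 : SignType.sign (MvPolynomial.eval R' (p - MvPolynomial.C err)) =
      SignType.sign (MvPolynomial.eval I (p - MvPolynomial.C err)))
    (h4 : SignType.sign (MvPolynomial.eval R' (p + MvPolynomial.C err)) =
      SignType.sign (MvPolynomial.eval I (p + MvPolynomial.C err))) :
    SignType.sign (MvPolynomial.eval R p) = SignType.sign (MvPolynomial.eval I p) ∧
    err < |MvPolynomial.eval R' p| ∧
    SignType.sign (MvPolynomial.eval R' p) = SignType.sign (MvPolynomial.eval R p) := by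
  simp only [map_sub, map_add, MvPolynomial.eval_C] at h1 h2 h3 h4
  rcases le_or_gt 0 (MvPolynomial.eval R p) with h5 | h5
  · rw [abs_of_nonneg h5] at h
    have g1 : SignType.sign (MvPolynomial.eval R p - err) = 1 := sign_pos (by linarith)
    have g2 := h1.symm.trans g1
    have g3 := h3.trans g2
    rw [sign_eq_one_iff] at g2 g3
    have a1 : 0 < MvPolynomial.eval R p := by linarith
    have a2 : 0 < MvPolynomial.eval I p := by linarith
    have a3 : 0 < MvPolynomial.eval R' p := by linarith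
    rw [sign_pos a1, sign_pos a2, sign_pos a3, abs_of_pos a3]
    exact ⟨rfl, by linarith, rfl⟩
  · rw [abs_of_neg h5] at h
    have g1 : SignType.sign (MvPolynomial.eval R p + err) = -1 := sign_neg (by linarith)
    have g2 := h2.symm.trans g1
    have g3 := h4.trans g2
    rw [sign_eq_neg_one_iff] at g2 g3
    have a2 : MvPolynomial.eval I p < 0 := by linarith
    have a3 : MvPolynomial.eval R' p < 0 := by linarith
    rw [sign_neg h5, sign_neg a2, sign_neg a3, abs_of_neg a3]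
    exact ⟨rfl, by linarith, rfl⟩

open Classical in
/-- Few masks for which the truncation or planting change the sign. -/
private theorem good_P3 {K d s0 L Y Q : ℕ} {Λ : ℝ} (hM : 256 * K * (4 * s0 * d) ≤ M)
    (hsd : 0 < 4 * s0 * d) (hL : 2 * N + 2 ≤ L) (hY : M ≤ Y) (p : MvPolynomial (E m) ℝ)
    (hp : p.totalDegree ≤ d) (err : (E m → Bool) → ℝ) (herr : ∀ δ, 0 ≤ err δ) (x : E m)
    (y : Om (E m) k b U → (E m → Bool) → E m) :
    256 * K * (univ.filter fun z : Om (E m) k b U × BgM m k U M N =>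
      GP3 s0 L Y Q Λ p err x y z).card ≤
      Fintype.card (Om (E m) k b U × BgM m k U M N) := by
  refine good_fib (good_eqU m k b U M N) _ _ fun w => ?_
  obtain ⟨ω, δ, ξ⟩ := w
  by_cases hc : (piv (Q : ℝ) Λ p δ).card ≤ s0
  swap
  · have e1 : (univ.filter fun u : Fin k → Fin U → Fin M =>
        GP3 s0 L Y Q Λ p err x y (good_eqU m k b U M N ((ω, δ, ξ), u))) = ∅ := by
      rw [filter_eq_empty_iff]
      intro u _ hu
      exact hc hu.1
    rw [e1, card_empty, mul_zero]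
    exact Nat.zero_le _
  obtain ⟨S, hS⟩ : ∃ S, S = piv (Q : ℝ) Λ p δ := ⟨_, rfl⟩
  have hδ : ∀ e ∈ S, δ e = false := by
    intro e he
    rw [hS] at he
    unfold piv at he
    exact (mem_filter.1 he).2.1
  rw [← hS] at hc
  have hpar : ∀ e : E m, 0 ≤ par e ∧ par e ≤ 1 := by
    intro e
    unfold par
    split_ifs
    · exact ⟨zero_le_one, le_rfl⟩
    · exact ⟨le_rfl, zero_le_one⟩
  obtain ⟨nu, hnu⟩ : ∃ nu : E m → ℤ, nu = fun e => 2 * ((ξ e : ℕ) : ℤ) + par e := ⟨_, rfl⟩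
  have hnu1 : ∀ e : E m, 0 ≤ nu e ∧ nu e < L := by
    intro e
    rw [hnu]
    have h1 := hpar e
    have h2 := (ξ e).isLt
    constructor
    · have : (0 : ℤ) ≤ ((ξ e : ℕ) : ℤ) := Int.natCast_nonneg _
      show 0 ≤ 2 * ((ξ e : ℕ) : ℤ) + par e
      linarith [h1.1]
    · have h3 : ((ξ e : ℕ) : ℤ) ≤ N := by exact_mod_cast Nat.lt_succ_iff.1 h2
      have h4 : (2 : ℤ) * N + 2 ≤ L := by exact_mod_cast hL
      show 2 * ((ξ e : ℕ) : ℤ) + par e < L
      linarith [h1.2]
  obtain ⟨nu', hnu'⟩ : ∃ nu' : E m → ℤ, nu' = Function.update nu x (nu (y ω δ)) := ⟨_, rfl⟩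
  have hnu2 : ∀ e : E m, 0 ≤ nu' e ∧ nu' e < L := by
    intro e
    rw [hnu']
    by_cases h : e = x
    · rw [h, Function.update_self]
      exact hnu1 _
    · rw [Function.update_of_ne h]
      exact hnu1 _
  obtain ⟨w, hw⟩ : ∃ w : E m → ℝ, w = fun e =>
    if δ e = true then (((Q : ℤ) * ((ξ e : ℕ) : ℤ) + par e : ℤ) : ℝ) else 0 := ⟨_, rfl⟩
  have hdp : ∀ c : ℝ, ∀ e ∈ S, (p - MvPolynomial.C c).degreeOf e ≤ d := by
    intro c e _
    refine (MvPolynomial.degreeOf_le_totalDegree _ e).trans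
      ((MvPolynomial.totalDegree_sub _ _).trans ?_)
    rw [MvPolynomial.totalDegree_C]
    exact max_le hp (Nat.zero_le _)
  have hdp' : ∀ c : ℝ, ∀ e ∈ S, (p + MvPolynomial.C c).degreeOf e ≤ d := by
    intro c e _
    refine (MvPolynomial.degreeOf_le_totalDegree _ e).trans
      ((MvPolynomial.totalDegree_add _ _).trans ?_)
    rw [MvPolynomial.totalDegree_C]
    exact max_le hp (Nat.zero_le _)
  have k1 := hybridH (M := M) (L := L) hY S ω nu (fun e _ => hnu1 e) w
    (p - MvPolynomial.C (err δ)) (hdp _)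
  have k2 := hybridH (M := M) (L := L) hY S ω nu (fun e _ => hnu1 e) w
    (p + MvPolynomial.C (err δ)) (hdp' _)
  have k3 := hybridH (M := M) (L := L) hY S ω nu' (fun e _ => hnu2 e) w
    (p - MvPolynomial.C (err δ)) (hdp _)
  have k4 := hybridH (M := M) (L := L) hY S ω nu' (fun e _ => hnu2 e) w
    (p + MvPolynomial.C (err δ)) (hdp' _)
  refine good_cancel hM ?_ hsd
  have hsum : ∀ {a1 a2 a3 a4 T : ℕ} (X : ℕ), a1 * M ≤ S.card * d * T → a2 * M ≤ S.card * d * T →
      a3 * M ≤ S.card * d * T → a4 * M ≤ S.card * d * T → X ≤ a1 + (a2 + (a3 + a4)) →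
      X * M ≤ 4 * s0 * d * T := by
    intro a1 a2 a3 a4 T X g1 g2 g3 g4 g5
    have g6 : S.card * d * T ≤ s0 * d * T :=
      Nat.mul_le_mul_right _ (Nat.mul_le_mul_right _ hc)
    calc X * M ≤ (a1 + (a2 + (a3 + a4))) * M := Nat.mul_le_mul_right _ g5
      _ = a1 * M + (a2 * M + (a3 * M + a4 * M)) := by ring
      _ ≤ s0 * d * T + (s0 * d * T + (s0 * d * T + s0 * d * T)) :=
        Nat.add_le_add (g1.trans g6) (Nat.add_le_add (g2.trans g6)
          (Nat.add_le_add (g3.trans g6) (g4.trans g6)))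
      _ = 4 * s0 * d * T := by ring
  refine hsum _ k1 k2 k3 k4 ?_
  refine (card_le_card ?_).trans ((card_union_le _ _).trans (Nat.add_le_add_left
    ((card_union_le _ _).trans (Nat.add_le_add_left (card_union_le _ _) _)) _))
  intro u hu
  rw [mem_filter] at hu
  obtain ⟨-, hu⟩ := hu
  by_contra hcon
  rw [mem_union, mem_union, mem_union, not_or, not_or, not_or, mem_filter, mem_filter, mem_filter,
    mem_filter] at hcon
  simp only [mem_univ, true_and, not_not] at hcon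
  obtain ⟨c1, c2, c3, c4⟩ := hcon
  have hu' : (piv (Q : ℝ) Λ p δ).card ≤ s0 ∧
      err δ < |MvPolynomial.eval (cut δ (piv (Q : ℝ) Λ p δ) (vrM L Y Q ω (δ, u, ξ))) p| ∧
      (SignType.sign (MvPolynomial.eval (cut δ (piv (Q : ℝ) Λ p δ) (vrM L Y Q ω (δ, u, ξ))) p) ≠
        idlM L Y Q p (piv (Q : ℝ) Λ p δ) ω (δ, u, ξ) ∨
      (x ∈ piv (Q : ℝ) Λ p δ ∧ x ∉ hm (piv (Q : ℝ) Λ p δ) ω k ∧
        δ (y ω δ) = false ∧ ω.1 (y ω δ) = ω.1 x ∧
        ¬ (err δ < |MvPolynomial.eval (Function.update (cut δ (piv (Q : ℝ) Λ p δ)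
            (vrM L Y Q ω (δ, u, ξ))) x (vrM L Y Q ω (δ, u, ξ) (y ω δ))) p| ∧
          SignType.sign (MvPolynomial.eval (Function.update
            (cut δ (piv (Q : ℝ) Λ p δ) (vrM L Y Q ω (δ, u, ξ))) x
              (vrM L Y Q ω (δ, u, ξ) (y ω δ))) p) =
          SignType.sign (MvPolynomial.eval (cut δ (piv (Q : ℝ) Λ p δ)
            (vrM L Y Q ω (δ, u, ξ))) p)))) := hu
  rw [← hS] at hu'
  obtain ⟨-, e2, e3⟩ := hu'
  have hR : cut δ S (vrM L Y Q ω (δ, u, ξ)) =
      fun e => if e ∈ S then (fvH L Y u ω nu e : ℝ) else w e := by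
    funext e
    rw [hw, hnu]
    unfold cut vrM vr vl fvH
    by_cases he : e ∈ S
    · have h2 : δ e = false := hδ e he
      simp only [he, cmp, h2, or_true, if_true, if_false, Bool.false_eq_true]
      congr 1
      unfold strc g
      ring
    · by_cases h2 : δ e = true
      · simp only [he, cmp, h2, true_or, if_true, if_false]
      · simp [he, h2]
  have hI : iptM L Y Q S ω (δ, u, ξ) =
      fun e => if e ∈ S then (rvH L Y S u ω nu e : ℝ) else w e := by
    funext e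
    rw [hw, hnu]
    unfold iptM vrM vr vl rpM rvH
    by_cases he : e ∈ S
    · have h2 : δ e = false := hδ e he
      simp only [he, h2, if_true, if_false, Bool.false_eq_true]
    · by_cases h2 : δ e = true
      · simp only [he, cmp, h2, if_true, if_false]
      · simp only [he, h2, if_false]
        rfl
  by_cases hpl : x ∈ S ∧ x ∉ hm S ω k ∧ δ (y ω δ) = false ∧ ω.1 (y ω δ) = ω.1 x
  · obtain ⟨p1, p2, p3, p4⟩ := hpl
    have hI' : (fun e => if e ∈ S then (rvH L Y S u ω nu' e : ℝ) else w e) =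
        fun e => if e ∈ S then (rvH L Y S u ω nu e : ℝ) else w e := by
      funext e
      by_cases he : e ∈ S
      · rw [if_pos he, if_pos he]
        congr 1
        unfold rvH
        congr 1
        by_cases hek : e ∈ hm S ω k
        · rw [if_pos hek, if_pos hek, hnu', Function.update_of_ne]
          rintro rfl
          exact p2 hek
        · rw [if_neg hek, if_neg hek]
      · rw [if_neg he, if_neg he]
    have hR' : Function.update (cut δ S (vrM L Y Q ω (δ, u, ξ))) x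
        (vrM L Y Q ω (δ, u, ξ) (y ω δ)) =
        fun e => if e ∈ S then (fvH L Y u ω nu' e : ℝ) else w e := by
      funext e
      by_cases he : e = x
      · subst he
        rw [Function.update_self, if_pos p1, hnu', hnu]
        unfold vrM vr vl fvH
        rw [Function.update_self]
        simp only [cmp, p3, if_false, Bool.false_eq_true]
        congr 1
        unfold strc g
        rw [p4]
        ring
      · rw [Function.update_of_ne he, hR]
        show (if e ∈ S then (fvH L Y u ω nu e : ℝ) else w e) =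
          if e ∈ S then (fvH L Y u ω nu' e : ℝ) else w e
        by_cases heS : e ∈ S
        · rw [if_pos heS, if_pos heS]
          congr 1
          unfold fvH
          rw [hnu', Function.update_of_ne he]
        · rw [if_neg heS, if_neg heS]
    rw [hI'] at c3 c4
    rw [← hI] at c1 c2 c3 c4
    rw [← hR] at c1 c2
    rw [← hR'] at c3 c4
    obtain ⟨q1, q2, q3⟩ := good_hyb p (herr δ) _ _ _ e2 c1 c2 c3 c4
    rcases e3 with e3 | e3
    · exact e3 q1
    · exact e3.2.2.2.2 ⟨q2, q3⟩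
  · rcases e3 with e3 | e3
    · rw [← hI] at c1 c2
      rw [← hR] at c1 c2
      exact e3 (good_hyb p (herr δ) _ _ _ e2 c1 c2 c1 c2).1
    · exact hpl ⟨e3.1, e3.2.1, e3.2.2.1, e3.2.2.2.1⟩

open Classical in
/-- A dense sign query is good with large probability. -/
theorem good_cardM {K d t s0 L Y Q H : ℕ} {Λ : ℝ} (hd : 1 ≤ d) (hs : 2 * d * t ≤ s0)
    (hK : 256 * K ≤ 2 ^ t) (hN : 256 * K * d ^ 2 ≤ N + 1) (hM : 256 * K * (4 * s0 * d) ≤ M)
    (hL : 2 * N + 2 ≤ L) (hY : M ≤ Y) (hY1 : 1 ≤ Y) (hH : (3 * m ^ 2 + 1) ^ d ≤ H)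
    (hΛ : (acC d : ℝ) * H * (L * (Y : ℝ) ^ k) ≤ Λ)
    (hQ : 2 * (acC d : ℝ) * H * Λ ^ d ≤ Q) (p : MvPolynomial (E m) ℝ)
    (hp : p.totalDegree ≤ d) (x : E m) (y : Om (E m) k b U → (E m → Bool) → E m) :
    256 * K * (univ.filter fun z : Om (E m) k b U × BgM m k U M N =>
      ¬ ((piv (Q : ℝ) Λ p z.2.1).card ≤ s0 ∧
        GoodM L Y Q p (piv (Q : ℝ) Λ p z.2.1) z.1 z.2 x (y z.1 z.2.1))).card ≤
      3 * Fintype.card (Om (E m) k b U × BgM m k U M N) := by
  rcases Nat.eq_zero_or_pos K with rfl | hK0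
  · simp
  have hT : 1 ≤ t := by
    by_contra h
    have h1 : t = 0 := by omega
    subst h1
    omega
  have hs0 : 1 ≤ s0 := by
    have h1 : 1 ≤ 2 * d * t := Nat.mul_pos (by omega) (by omega)
    omega
  have hac : (1 : ℝ) ≤ acC d := by exact_mod_cast one_le_acC d
  have hH1 : 1 ≤ H := (Nat.one_le_pow _ _ (by omega)).trans hH
  have hH1' : (1 : ℝ) ≤ H := by exact_mod_cast hH1
  have hLR : (2 : ℝ) ≤ L := by exact_mod_cast (by omega : 2 ≤ L)
  have hYk : (1 : ℝ) ≤ (Y : ℝ) ^ k := one_le_pow₀ (by exact_mod_cast hY1)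
  have hB1 : (1 : ℝ) ≤ L * (Y : ℝ) ^ k := by nlinarith
  have hB0 : (0 : ℝ) ≤ L * (Y : ℝ) ^ k := by linarith
  have hΛ1 : (1 : ℝ) ≤ Λ := by
    refine le_trans ?_ hΛ
    calc (1 : ℝ) = 1 * 1 * 1 := by norm_num
      _ ≤ (acC d : ℝ) * H * (L * (Y : ℝ) ^ k) := by
        refine mul_le_mul (mul_le_mul hac hH1' (by norm_num) (by linarith)) hB1 (by norm_num) (by positivity)
  have hΛ0 : 0 < Λ := by linarith
  have hQ2 : (2 : ℝ) ≤ Q := by
    refine le_trans ?_ hQ
    have h1 : (1 : ℝ) ≤ Λ ^ d := one_le_pow₀ hΛ1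
    calc (2 : ℝ) = 2 * 1 * 1 * 1 := by norm_num
      _ ≤ 2 * (acC d : ℝ) * H * Λ ^ d := by
        refine mul_le_mul (mul_le_mul (mul_le_mul_of_nonneg_left hac (by norm_num)) hH1' (by norm_num)
          (by positivity)) h1 (by norm_num) (by positivity)
  have hQN : 2 ≤ Q := by exact_mod_cast hQ2
  have hQ0 : (0 : ℝ) < Q := by linarith
  by_cases htriv : p = 0
  · subst htriv
    have h1 : (univ.filter fun z : Om (E m) k b U × BgM m k U M N =>
        ¬ ((piv (Q : ℝ) Λ (0 : MvPolynomial (E m) ℝ) z.2.1).card ≤ s0 ∧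
        GoodM L Y Q 0 (piv (Q : ℝ) Λ 0 z.2.1) z.1 z.2 x (y z.1 z.2.1))) = ∅ := by
      rw [filter_eq_empty_iff]
      intro z _ h
      refine h ⟨?_, ?_, fun _ _ _ _ _ => ?_⟩
      · have h1 : piv (Q : ℝ) Λ (0 : MvPolynomial (E m) ℝ) z.2.1 = ∅ := by
          unfold piv
          simp
        rw [h1, card_empty]
        exact Nat.zero_le _
      · show SignType.sign (MvPolynomial.eval _ 0) = SignType.sign (MvPolynomial.eval _ 0)
        rw [RingHom.map_zero, RingHom.map_zero]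
      · show SignType.sign (MvPolynomial.eval _ 0) = SignType.sign (MvPolynomial.eval _ 0)
        rw [RingHom.map_zero, RingHom.map_zero]
    rw [h1, card_empty, mul_zero]
    exact Nat.zero_le _
  have hm1 : 1 ≤ m := by
    have h1 := x.2.1.isLt
    omega
  have hH2 : 2 ≤ H := by
    refine le_trans ?_ hH
    have h1 : 1 ≤ m ^ 2 := Nat.one_le_pow _ _ hm1
    calc 2 ≤ 3 * m ^ 2 + 1 := by omega
      _ ≤ (3 * m ^ 2 + 1) ^ d := Nat.le_self_pow (by omega) _
  have h2B : 2 * (L * (Y : ℝ) ^ k) ≤ Λ := by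
    refine le_trans (mul_le_mul_of_nonneg_right ?_ hB0) hΛ
    have h1 : (2 : ℝ) ≤ H := by exact_mod_cast hH2
    calc (2 : ℝ) = 1 * 2 := by norm_num
      _ ≤ (acC d : ℝ) * H := mul_le_mul hac h1 (by norm_num) (by linarith)
  have hne : p.support.Nonempty := MvPolynomial.support_nonempty.2 htriv
  have hex : ∀ δ : E m → Bool, ∃ μ0 ∈ p.support, ∀ μ ∈ p.support, mag (Q : ℝ) Λ p δ μ ≤ mag (Q : ℝ) Λ p δ μ0 :=
    fun δ => exists_max_image p.support (mag (Q : ℝ) Λ p δ) hne
  choose μ0 hμ0 hmax using hex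
  have hsc : (p.support.card : ℝ) ≤ H := by
    have h1 : p.support.card ≤ H := (support_card_le p hp).trans (by
      rw [Fintype.card_prod, Fintype.card_prod, Fintype.card_fin, Fintype.card_fin, ← sq]
      exact hH)
    exact_mod_cast h1
  have hmag0 : ∀ δ, 0 ≤ mag (Q : ℝ) Λ p δ (μ0 δ) := fun δ => mag_nonneg (by linarith) hΛ0.le p δ _
  obtain ⟨err, herr⟩ : ∃ err : (E m → Bool) → ℝ, err = fun δ => (H : ℝ) * mag (Q : ℝ) Λ p δ (μ0 δ) / Q := ⟨_, rfl⟩
  have hsub : ∀ z : Om (E m) k b U × BgM m k U M N, ¬ ((piv (Q : ℝ) Λ p z.2.1).card ≤ s0 ∧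
        GoodM L Y Q p (piv (Q : ℝ) Λ p z.2.1) z.1 z.2 x (y z.1 z.2.1)) →
      (s0 < (piv (Q : ℝ) Λ p z.2.1).card) ∨ GP2 L Y Q Λ p err z ∨ GP3 s0 L Y Q Λ p err x y z := by
    intro z hz
    by_contra hcon
    rw [not_or, not_or] at hcon
    obtain ⟨c1, c2, c3⟩ := hcon
    rw [not_lt] at c1
    unfold GP2 at c2
    rw [not_not] at c2
    unfold GP3 at c3
    rw [not_and, not_and] at c3
    have c3' := c3 c1 c2
    rw [not_or, not_not] at c3'
    obtain ⟨c4, c5⟩ := c3'
    clear c3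
    refine hz (goodM_of (err := err z.2.1) p z.1 z.2 x (y z.1 z.2.1) c1 c2 c4 ?_ ?_)
    · intro hx hmt hy hdg
      by_contra hcon
      exact c5 ⟨hx, hmt, hy, hdg, hcon⟩
    · intro v hv
      rw [herr, le_div_iff₀ hQ0]
      refine (drop_small (by linarith only [hQ2]) hB0 h2B p z.2.1 (hmax z.2.1) v ?_ ?_).trans
        (mul_le_mul_of_nonneg_right hsc (hmag0 _))
      · intro e he
        obtain ⟨e', h1, h2⟩ := hv e
        rw [h2]
        exact (good_bd (Q := Q) hL hY hY1 (by omega) z.1 z.2 e').1 (h1.trans he)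
      · intro e he
        obtain ⟨e', h1, h2⟩ := hv e
        rw [h2]
        have h3 := (good_bd (Q := Q) hL hY hY1 (by omega) z.1 z.2 e').2 (h1.trans he)
        exact h3.trans (by linarith only [hB0])
  have b1 := good_P1 (m := m) (k := k) (b := b) (U := U) (M := M) (N := N) (q := (Q : ℝ)) (by linarith)
    hΛ0.le hs hK p hp
  have b2 := good_P2 (m := m) (k := k) (b := b) (U := U) (M := M) (N := N) hd hN hL hY hY1 hH hΛ hQ p hp
    (by omega) hΛ0 μ0 hμ0 hmax
  rw [← herr] at b2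
  have b3 := good_P3 (m := m) (k := k) (b := b) (U := U) (M := M) (N := N) (Q := Q) (Λ := Λ) hM
    (Nat.mul_pos (by omega) (by omega)) hL hY p hp err
    (fun δ => by
      rw [herr]
      exact div_nonneg (mul_nonneg (by linarith) (hmag0 δ)) hQ0.le) x y
  have hcard : ∀ (P P1 P2 P3 : Om (E m) k b U × BgM m k U M N → Prop) [DecidablePred P]
      [DecidablePred P1] [DecidablePred P2] [DecidablePred P3], (∀ ω, P ω → P1 ω ∨ P2 ω ∨ P3 ω) →
      (univ.filter P).card ≤ (univ.filter P1).card + ((univ.filter P2).card + (univ.filter P3).card) := by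
    intro P P1 P2 P3 _ _ _ _ h
    refine le_trans (card_le_card (t := univ.filter P1 ∪ (univ.filter P2 ∪ univ.filter P3)) fun ω hω => ?_)
      ((card_union_le _ _).trans (Nat.add_le_add_left (card_union_le _ _) _))
    rw [mem_filter] at hω
    rw [mem_union, mem_union, mem_filter, mem_filter, mem_filter]
    rcases h ω hω.2 with h1 | h1 | h1
    · exact Or.inl ⟨mem_univ _, h1⟩
    · exact Or.inr (Or.inl ⟨mem_univ _, h1⟩)
    · exact Or.inr (Or.inr ⟨mem_univ _, h1⟩)
  have hfin := Nat.mul_le_mul_left (256 * K) (hcard _ _ _ _ hsub)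
  rw [mul_add, mul_add] at hfin
  refine hfin.trans ((Nat.add_le_add b1 (Nat.add_le_add b2 b3)).trans (le_of_eq ?_))
  ring

end Pool.Agent.Helper21.MX
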